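import Mathlib
import Pool.Agent.H.MP_2a8190_pr.G

namespace Pool.Agent.Results.MP_2a8190_pr.Compare

open MeasureTheory ProbabilityTheory Filter Topology Function Pool.Agent.H.MP_2a8190_pr
open scoped ENNReal NNReal unitInterval

/-- `N t` counts the rings up to time `t` of a Poisson clock of rate `r` -/
structure IsClock {Ω : Type} [MeasurableSpace Ω] (r : ℝ≥0) (N : ℝ≥0 → Ω → ℕ) (P : Measure Ω) :
    Prop where
  meas : ∀ t, Measurable (N t)
  zero : ∀ ω, N 0 ω = 0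
  mono : ∀ ω, Monotone fun t => N t ω
  rc : ∀ ω t, ContinuousWithinAt (fun s => N s ω) (Set.Ici t) t
  indep : HasIndepIncrements N P
  law : ∀ s t, s ≤ t → HasLaw (fun ω => N t ω - N s ω) (poissonMeasure (r * (t - s))) P

/-- the path `X` crosses an edge at its position when that edge rings and is open -/
structure Walk {V : Type} (G : SimpleGraph V) (N : Sym2 V → ℝ≥0 → ℕ) (η : ℝ≥0 → Sym2 V → Bool)
    (X : ℝ≥0 → V) : Prop where
  stay : ∀ s t, s ≤ t → (∀ y, G.Adj (X s) y → N s(X s, y) t = N s(X s, y) s) → X t = X s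
  jump : ∀ s t y, s < t → G.Adj (X s) y → (∀ r < t, N s(X s, y) r < N s(X s, y) t) →
    (∀ z, G.Adj (X s) z → ∀ r, s ≤ r → r < t → N s(X s, z) r = N s(X s, z) s) →
    X t = if η t s(X s, y) then y else X s

/-- random walk on dynamical percolation started at `o` in a stationary environment -/
def RWDP {V Ω : Type} [MeasurableSpace Ω] (G : SimpleGraph V) (μ : ℝ≥0) (p : I) (o : V)
    (P : Measure Ω) (X : ℝ≥0 → Ω → V) : Prop :=
  ∃ (N : Bool × Sym2 V → ℝ≥0 → Ω → ℕ) (b : Ω → Sym2 V × ℕ → Bool),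
    (∀ e, IsClock 1 (N (true, e)) P) ∧ (∀ e, IsClock μ (N (false, e)) P) ∧
    iIndepFun (fun e ω t => N e t ω) P ∧
    MeasurePreserving b P (Measure.infinitePi fun _ => bernoulliMeasure true false p) ∧
    IndepFun b (fun ω e t => N e t ω) P ∧
    ∀ᵐ ω ∂P, X 0 ω = o ∧ Walk G (fun e t => N (true, e) t ω)
      (fun t e => b ω (e, N (false, e) t ω)) fun t => X t ω

lemma law {J S Ω : Type} [MeasurableSpace S] [MeasurableSpace Ω] {P : Measure Ω}
    [IsProbabilityMeasure P] {N : J → ℝ≥0 → Ω → ℕ} {r : J → ℝ≥0} (hN : ∀ e, IsClock (r e) (N e) P)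
    (hi : iIndepFun (fun e ω t => N e t ω) P) {g : Ω → S} {ν : Measure S}
    (hg : MeasurePreserving g P ν) (hi' : IndepFun g (fun ω e t => N e t ω) P) (δ : ℝ≥0) :
    MeasurePreserving (fun ω => (g ω, fun (k : ℕ) e => N e ((k + 1 : ℕ) * δ) ω - N e (k * δ) ω)) P
      (ν.prod (Measure.infinitePi fun _ => Measure.infinitePi fun e => poissonMeasure (r e * δ))) := by
  have mo : Monotone fun k : ℕ => k * δ := fun a b h => by dsimp only; gcongr
  have m : ∀ e (k : ℕ), Measurable fun ω => N e ((k + 1 : ℕ) * δ) ω - N e (k * δ) ω :=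
    fun e k => ((hN e).meas _).sub ((hN e).meas _)
  have m2 : Measurable fun ω (k : ℕ) e => N e ((k + 1 : ℕ) * δ) ω - N e (k * δ) ω :=
    measurable_pi_lambda _ fun k => measurable_pi_lambda _ fun e => m e k
  refine ⟨hg.measurable.prodMk m2, ?_⟩
  have h1 : IndepFun g (fun ω (k : ℕ) e => N e ((k + 1 : ℕ) * δ) ω - N e (k * δ) ω) P :=
    hi'.comp measurable_id (ψ := fun (z : J → ℝ≥0 → ℕ) (k : ℕ) e =>
      z e ((k + 1 : ℕ) * δ) - z e (k * δ)) (by fun_prop)
  rw [h1.map_prod_eq_prod_map_map hg.aemeasurable m2.aemeasurable, hg.map_eq]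
  congr 1
  have h2 := iIndepFun_uncurry' m
    (hi.comp (fun _ (z : ℝ≥0 → ℕ) (k : ℕ) => z ((k + 1 : ℕ) * δ) - z (k * δ)) fun _ => by fun_prop)
    fun e => (hN e).indep.nat mo
  have h3 := (h2.precomp (g := fun p : (_ : ℕ) × J => (p.2, p.1)) (by
    rintro ⟨a, b⟩ ⟨c, e⟩ h
    simp only [Prod.mk.injEq] at h
    obtain ⟨rfl, rfl⟩ := h
    rfl)).map_fun_eq_infinitePi_map fun p => m _ _
  have h4 : ∀ e (k : ℕ), P.map (fun ω => N e ((k + 1 : ℕ) * δ) ω - N e (k * δ) ω) =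
      poissonMeasure (r e * δ) := fun e k => by
    rw [((hN e).law _ _ (mo k.le_succ)).map_eq]
    push_cast
    rw [add_mul, add_tsub_cancel_left, one_mul]
  simp only [h4] at h3
  rw [← Measure.infinitePi_map_piCurry (fun (_ : ℕ) (e : J) => poissonMeasure (r e * δ)),
    ← h3, Measure.map_map (MeasurableEquiv.measurable _) (measurable_pi_lambda _ fun p => m _ _)]
  rfl

variable {V Ω : Type} [MeasurableSpace Ω] {G : SimpleGraph V} {μ : ℝ≥0} {p : I} {o : V}
  {P : Measure Ω} [IsProbabilityMeasure P] {X : ℝ≥0 → Ω → V}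

lemma RWDP.mo [DecidableEq V] [G.LocallyFinite] (h : RWDP G μ p o P X) :
    Mo G (bernoulliMeasure true false p) μ o P X := by
  obtain ⟨N, b, h1, h2, h3, h4, h5, h6⟩ := h
  have h7 : ∀ e : Bool × Sym2 V, IsClock (if e.1 then 1 else μ) (N e) P := by
    rintro ⟨_ | _, e⟩
    exacts [h2 e, h1 e]
  refine ⟨N, b, fun F δ => ?_, h6.mono fun ω k => ⟨k.1, fun e => (h7 e).mono ω,
    fun e => (h7 e).rc ω, fun e => (h7 e).zero ω, k.2.stay, k.2.jump⟩⟩
  have h8 : MeasurePreserving (fun (β : Sym2 V × ℕ → Bool) (c : EF G F × ℕ) => β (c.1.1, c.2))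
      (Measure.infinitePi fun _ => bernoulliMeasure true false p) _ :=
    ⟨by fun_prop, Measure.map_infinitePi_infinitePi_of_inj
      (Subtype.val_injective.prodMap injective_id)⟩
  exact law (N := fun j : Bool × EF G F => N (j.1, j.2)) (fun j => h7 _)
    (h3.precomp (injective_id.prodMap Subtype.val_injective)) (h8.comp h4)
    (h5.comp h8.measurable
      (ψ := fun (z : Bool × Sym2 V → ℝ≥0 → ℕ) (j : Bool × EF G F) => z (j.1, j.2)) (by fun_prop)) δ

lemma RWDP.map (h : RWDP G μ p o P X) (φ : G ≃g G) : RWDP G μ p (φ o) P fun t ω => φ (X t ω) := by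
  obtain ⟨N, b, h1, h2, h3, h4, h5, h6⟩ := h
  have i1 := Sym2.map.injective φ.symm.injective
  have h8 : MeasurePreserving (fun (β : Sym2 V × ℕ → Bool) (c : Sym2 V × ℕ) => β (c.1.map φ.symm, c.2))
      (Measure.infinitePi fun _ => bernoulliMeasure true false p) _ :=
    ⟨by fun_prop, Measure.map_infinitePi_infinitePi_of_inj (i1.prodMap injective_id)⟩
  refine ⟨fun e => N (e.1, e.2.map φ.symm), _, fun e => h1 _, fun e => h2 _,
    h3.precomp (injective_id.prodMap i1), h8.comp h4, h5.comp h8.measurable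
      (ψ := fun (z : Bool × Sym2 V → ℝ≥0 → ℕ) (e : Bool × Sym2 V) => z (e.1, e.2.map φ.symm)) (by fun_prop),
    h6.mono fun ω k => ⟨congrArg φ k.1, fun s t k1 k2 => congrArg φ (k.2.stay s t k1 fun y hy => by
      simpa using k2 (φ y) (φ.map_adj_iff.2 hy)), fun s t y k1 k2 k3 k4 => ?_⟩⟩
  obtain ⟨y, rfl⟩ := φ.surjective y
  dsimp only
  rw [k.2.jump s t y k1 (φ.map_adj_iff.1 k2) (by simpa using k3) fun z hz => by
    simpa using k4 (φ z) (φ.map_adj_iff.2 hz), apply_ite φ]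
  simp

lemma RWDP.rp [DecidableEq V] [G.LocallyFinite] (ht : ∀ x y, ∃ φ : G ≃g G, φ x = y)
    (h : RWDP G μ p o P X) :
    Rp G (bernoulliMeasure true false p) μ fun t => P.real {ω | X t ω = o} :=
  ⟨Ω, _, P, inferInstance, fun x => by
    obtain ⟨φ, rfl⟩ := ht o x
    exact ⟨_, (h.map φ).mo, by simp⟩⟩

theorem result (V : Type) [Infinite V] (G : SimpleGraph V) [G.LocallyFinite] (hG : G.Connected)
    (ht : ∀ x y, ∃ φ : G ≃g G, φ x = y) (o : V) (μ : ℝ≥0) (hμ : 0 < μ ∧ μ ≤ 1) (p : I) (hp : 0 < p) :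
    ∃ C : ℝ≥0, 1 ≤ C ∧
      ∀ (Ω : Type) [MeasurableSpace Ω] (P : Measure Ω) [IsProbabilityMeasure P] (X : ℝ≥0 → Ω → V)
        (Ω' : Type) [MeasurableSpace Ω'] (P' : Measure Ω') [IsProbabilityMeasure P']
        (Y : ℝ≥0 → Ω' → V), RWDP G μ p o P X → RWDP G μ 1 o P' Y → ∀ t : ℝ≥0,
        P'.real {ω | Y (C * t) ω = o} / C ≤ P.real {ω | X t ω = o} ∧
        P.real {ω | X t ω = o} ≤ C * P'.real {ω | Y (t / C) ω = o} := by
  classical
  have hd : ∀ x, (G.degree x : ℝ) ≤ G.degree o + 1 := fun x => by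
    obtain ⟨φ, rfl⟩ := ht o x
    rw [φ.degree_eq]
    linarith
  have d1 : (1 : ℝ) ≤ G.degree o + 1 := by simp
  obtain ⟨a, a0, ha⟩ := half hG.preconnected hd d1 o (bernoulliMeasure true false p)
    (by simpa using hp) hμ.1 hμ.2
  obtain ⟨b, b0, hb⟩ := half hG.preconnected hd d1 o (bernoulliMeasure true false 1)
    (by simp [Measure.real]) hμ.1 hμ.2
  have h2 : (2 : ℝ) ≤ (2 + a⁻¹ + b⁻¹ : ℝ≥0) := by
    exact_mod_cast le_self_add.trans le_self_add
  refine ⟨2 + a⁻¹ + b⁻¹, by exact_mod_cast one_le_two.trans h2,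
    fun Ω _ P _ X Ω' _ P' _ Y hX hY t => ⟨?_, ?_⟩⟩
  · rw [div_le_iff₀' (by positivity)]
    refine (hb _ _ _ (hY.rp ht) (hX.rp ht) t _ ?_).trans (by gcongr)
    rw [← mul_assoc, mul_add, mul_inv_cancel₀ b0.ne']
    exact le_mul_of_one_le_left zero_le le_add_self
  · refine (ha _ _ _ (hX.rp ht) (hY.rp ht) _ t ?_).trans (by gcongr)
    rw [div_le_iff₀ (by positivity), mul_right_comm, mul_add, mul_add, mul_inv_cancel₀ a0.ne']
    exact le_mul_of_one_le_left zero_le (le_add_self.trans le_self_add)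

end Pool.Agent.Results.MP_2a8190_pr.Compare
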